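import Pool.Agent.H66.HdyDefs
import Pool.Agent.H66.Hdy7

namespace Pool.Agent.Results.MP_4874ca_an.FiniteDim
open Pool.Agent.H66.Hdy Set

theorem result : ∃ D : Set ℂ, IsOpen D ∧ IsConnected D ∧
    (∃ f ∈ H2 D, ∃ a b : D, f a ≠ f b) ∧
    FiniteDimensional ℂ (H2 D) ∧ 2 ≤ Module.finrank ℂ (H2 D) := by
  have h1 : (fun _ => 1 : D → ℂ) ∈ H2 D := ⟨fun _ => 1, ⟨differentiableOn_const _, fun _ => 1,
    InnerProductSpace.harmonicOnNhd_const _, fun z _ => by simp⟩, fun _ => rfl⟩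
  have h2 : (fun z => z : D → ℂ) ∈ H2 D := ⟨fun z => z, ⟨differentiableOn_id, D_maj⟩, fun _ => rfl⟩
  have hp : (2 + Complex.I : ℂ) ∈ D := U_D (by show _ ≠ _; rw [im4]; norm_num)
  have hp0 : (2 + Complex.I : ℂ) ≠ 0 := fun h => by simpa using congrArg Complex.re h
  have hle : H2 D ≤ Submodule.span ℂ
      ({fun _ : D => (1 : ℂ), fun z : D => (z : ℂ), fun z : D => (z : ℂ) ^ 2} : Set (D → ℂ)) := by
    rintro g ⟨f, ⟨hf, u, hu, hfu⟩, hg⟩
    obtain ⟨a, b, c, h⟩ := thmA D_open U_D zero_D D_ae hf hu hfu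
    have : g = a • (fun _ => 1) + b • (fun z : D => (z : ℂ)) + c • (fun z : D => (z : ℂ) ^ 2) := by
      ext z; simp [hg, h z z.2]
    rw [this]
    refine add_mem (add_mem ?_ ?_) ?_ <;>
      exact Submodule.smul_mem _ _ (Submodule.subset_span (by simp))
  haveI : FiniteDimensional ℂ (Submodule.span ℂ
      ({fun _ : D => (1 : ℂ), fun z : D => (z : ℂ), fun z : D => (z : ℂ) ^ 2} : Set (D → ℂ))) :=
    FiniteDimensional.span_of_finite ℂ (toFinite _)
  haveI hfd : FiniteDimensional ℂ (H2 D) := Submodule.finiteDimensional_of_le hle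
  refine ⟨D, D_open, D_conn, ⟨_, h2, ⟨_, hp⟩, ⟨_, zero_D⟩, hp0⟩, hfd, ?_⟩
  have li : LinearIndependent ℂ ![(⟨_, h1⟩ : H2 D), ⟨_, h2⟩] := by
    rw [LinearIndependent.pair_iff]
    intro s t hst
    have a1 := congrFun (congrArg Subtype.val hst) ⟨_, zero_D⟩
    have a2 := congrFun (congrArg Subtype.val hst) ⟨_, hp⟩
    simp at a1
    simp [a1, hp0] at a2
    exact ⟨a1, a2⟩
  simpa using li.fintype_card_le_finrank

end Pool.Agent.Results.MP_4874ca_an.FiniteDim
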